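import Pool.Agent.H296Z.QuasiPL

set_option autoImplicit false

namespace Pool.Agent.Results.MP_3b2c1c_al.BrodskiiStrict

open Pool.Agent.H296Z.Quasi

/-- Some locally indicable group does not lie in the smallest extension closed quasivariety of
groups containing the infinite cyclic group. -/
theorem result : ∃ (G : Type) (_ : Group G), LocallyIndicable G ∧ ¬ InBrodskii G := main

end Pool.Agent.Results.MP_3b2c1c_al.BrodskiiStrict
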